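import Pool.Agent.H95.Scr.Asm

/-!
# In every dimension `d ≥ 4` some `d`-polytope is not `(0, d-1)`-scribable

This answers question Q1 of MP_3c8515_co: there is a `d`-polytope none of whose realizations has
all vertices strongly avoiding and all facets strongly cutting the unit sphere.

The polytope: put at the vertices of a simplex with vectors `b 0, ..., b d` the points `2 b k + b l`
and `6 b k + b l + b m`.  In each plane of three indices they form a nonagon.  For every triple of
indices a gadget with 138 further vertices is added, which makes the nonagon projectively unique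
in every realization.  The nonagons then force a common frame `e 0, ..., e d` with vertices
`2 e k + e l` and `6 e k + e l + e m`, and an estimate for the Lorentz form ends the proof.
-/

namespace Pool.Agent.Results.MP_3c8515_co.NotVertexFacetScribable

/-- Euclidean `d`-space. -/
abbrev E (d : ℕ) : Type := EuclideanSpace ℝ (Fin d)

/-- `P` is a `d`-polytope in `ℝ^d`: the convex hull of finitely many points, not contained in a
hyperplane. -/
def IsPolytope (d : ℕ) (P : Set (E d)) : Prop :=
  (∃ V : Finset (E d), P = convexHull ℝ (V : Set (E d))) ∧ affineSpan ℝ P = ⊤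

/-- `F` is a face of `P`: the set of points of `P` on a hyperplane `l x = c` with `l x ≤ c` on
`P` (this includes the empty face, and `P` itself for `l = 0`). -/
def IsFace {d : ℕ} (P F : Set (E d)) : Prop :=
  ∃ (l : E d →ₗ[ℝ] ℝ) (c : ℝ), (∀ x ∈ P, l x ≤ c) ∧ F = {x | x ∈ P ∧ l x = c}

/-- The dimension of a (nonempty) set. -/
noncomputable def faceDim {d : ℕ} (F : Set (E d)) : ℕ := Module.finrank ℝ (vectorSpan ℝ F)

/-- Combinatorial equivalence: isomorphic face lattices. -/
def SameType {d : ℕ} (P Q : Set (E d)) : Prop :=
  Nonempty ({F : Set (E d) // IsFace P F} ≃o {F : Set (E d) // IsFace Q F})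

/-- The closed unit ball. -/
def ball (d : ℕ) : Set (E d) := Metric.closedBall 0 1

/-- The face `F` of `Q` strongly avoids the unit sphere: some supporting hyperplane of `Q` meets
`Q` exactly in `F` and has the unit ball on the same (closed) side as `Q`. -/
def StronglyAvoids {d : ℕ} (Q F : Set (E d)) : Prop :=
  ∃ (l : E d →ₗ[ℝ] ℝ) (c : ℝ), l ≠ 0 ∧ (∀ x ∈ Q, l x ≤ c) ∧ F = {x | x ∈ Q ∧ l x = c} ∧
    ∀ x ∈ ball d, l x ≤ c

/-- The face `F` strongly cuts the unit sphere: its relative interior meets the unit ball. -/
def StronglyCuts {d : ℕ} (F : Set (E d)) : Prop :=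
  (intrinsicInterior ℝ F ∩ ball d).Nonempty

/-- `P` is (strongly) `(i, j)`-scribable: some realization `Q` of `P` has all `i`-faces strongly
avoiding and all `j`-faces strongly cutting the sphere. -/
def Scribable (d i j : ℕ) (P : Set (E d)) : Prop :=
  ∃ Q : Set (E d), IsPolytope d Q ∧ SameType P Q ∧
    (∀ F, IsFace Q F → F.Nonempty → faceDim F = i → StronglyAvoids Q F) ∧
    (∀ F, IsFace Q F → F.Nonempty → faceDim F = j → StronglyCuts F)

/-- In every dimension `d ≥ 4` there is a `d`-polytope that is not `(0, d-1)`-scribable. -/
theorem result : ∀ d : ℕ, 4 ≤ d → ∃ P : Set (E d), IsPolytope d P ∧ ¬ Scribable d 0 (d - 1) P :=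
  fun _ hd => Pool.Agent.H95.Scr.main hd

end Pool.Agent.Results.MP_3c8515_co.NotVertexFacetScribable
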